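import Mathlib
import Pool.Agent.Helper949.Srt.Defs
import Pool.Agent.Helper949.Srt.Main
import Pool.Agent.Helper949.SR5
set_option autoImplicit false

open Filter Topology
open Pool.Agent.Helper949.StackSort

namespace Pool.Agent.Results.MP_92d45d_co.Determination

/-- the entire function `w ↦ ∑ w^k / (k! (k+1)!)`, equal to `I_1(2 √w) / √w` for `w > 0`,
where `I_1` is the modified Bessel function -/
noncomputable def J (w : ℝ) : ℝ :=
  ∑' k : ℕ, w ^ k / ((k.factorial : ℝ) * ((k + 1).factorial : ℝ))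

/-- `α` is continuous on `[0, ρ)`, tends to infinity at `ρ`, and satisfies the integral equation
`exp(-α(x)) = 1 - ∫_0^x exp(-α(s)) (s + α(s)) J((x - s)(s + α(s))) ds` for `0 ≤ x < ρ` -/
def BlowUpSolution (ρ : ℝ) (α : ℝ → ℝ) : Prop :=
  ContinuousOn α (Set.Ico 0 ρ) ∧ Tendsto α (𝓝[<] ρ) atTop ∧
    ∀ x ∈ Set.Ico 0 ρ, Real.exp (-(α x)) =
      1 - ∫ s in (0 : ℝ)..x, Real.exp (-(α s)) * (s + α s) * J ((x - s) * (s + α s))

/-- if `a_n / (n! L^(n+1))` tends to `1` then the `n`-th root of `a_n / n!` tends to `L` -/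
theorem root_limit {L : ℝ} (hL : 0 < L)
    (h : Tendsto (fun n : ℕ => (sortedCount n : ℝ) / ((n.factorial : ℝ) * L ^ (n + 1)))
      atTop (𝓝 1)) :
    Tendsto (fun n : ℕ => ((sortedCount n : ℝ) / (n.factorial : ℝ)) ^ ((1 : ℝ) / n))
      atTop (𝓝 L) := by
  have h0 : Tendsto (fun n : ℕ => (1 : ℝ) / (n : ℝ)) atTop (𝓝 0) :=
    tendsto_one_div_atTop_nhds_zero_nat
  have h1 : Tendsto (fun n : ℕ => ((sortedCount n : ℝ) / ((n.factorial : ℝ) * L ^ (n + 1))) ^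
      ((1 : ℝ) / n)) atTop (𝓝 ((1 : ℝ) ^ (0 : ℝ))) :=
    h.rpow h0 (Or.inl one_ne_zero)
  have h2 : Tendsto (fun n : ℕ => L ^ (1 + (1 : ℝ) / n)) atTop (𝓝 (L ^ ((1 : ℝ) + 0))) :=
    (tendsto_const_nhds (x := L)).rpow (h0.const_add 1) (Or.inl hL.ne')
  have h3 := h1.mul h2
  simp only [Real.one_rpow, add_zero, Real.rpow_one, one_mul] at h3
  refine h3.congr' ?_
  filter_upwards [eventually_ge_atTop 1] with n hn
  have hn0 : (n : ℝ) ≠ 0 := by
    have : n ≠ 0 := by omega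
    exact_mod_cast this
  have hf : (0 : ℝ) < (n.factorial : ℝ) := by exact_mod_cast n.factorial_pos
  have e1 : L ^ (1 + (1 : ℝ) / n) = (L ^ (n + 1)) ^ ((1 : ℝ) / n) := by
    rw [← Real.rpow_natCast L (n + 1), ← Real.rpow_mul hL.le]
    congr 1
    push_cast
    field_simp
  rw [e1, ← Real.mul_rpow (by positivity) (by positivity)]
  congr 1
  field_simp

theorem result : ∃ L : ℝ, 0.6974 < L ∧ L < 0.6982 ∧
    Tendsto (fun n : ℕ => ((sortedCount n : ℝ) / (n.factorial : ℝ)) ^ ((1 : ℝ) / n))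
      atTop (𝓝 L) ∧
    Tendsto (fun n : ℕ => (sortedCount n : ℝ) / ((n.factorial : ℝ) * L ^ (n + 1)))
      atTop (𝓝 1) ∧
    (∃ α : ℝ → ℝ, BlowUpSolution (1 / L) α) ∧
    (∀ ρ : ℝ, 0 < ρ → ∀ α : ℝ → ℝ, BlowUpSolution ρ α → L = 1 / ρ) := by
  obtain ⟨L, h1, -, h3⟩ := asymptotics
  have hL : 0 < L := lt_of_lt_of_le (by positivity) h1
  have h4 : Tendsto (fun n => Pool.Agent.Helper949.SQ.b n / L ^ (n + 1)) atTop (𝓝 1) := by
    refine h3.congr' ?_
    filter_upwards [eventually_ge_atTop 1] with n hn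
    rw [ncard_image n hn, ← div_div]
    rfl
  have h5 := Pool.Agent.Helper949.SQ.L_bounds Pool.Agent.Helper949.SQ.hyp hL h4
  have h6 := Pool.Agent.Helper949.SR.exists_sol hL h4
  refine ⟨L, h5.1, h5.2, root_limit hL h3, h3, ⟨_, h6⟩, ?_⟩
  intro ρ hρ α hα
  have h7 := (Pool.Agent.Helper949.SR.sol_unique (by positivity) hρ h6 hα).1
  rw [← h7, one_div_one_div]

end Pool.Agent.Results.MP_92d45d_co.Determination
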